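import Pool.Agent.QSN.StmtsA
import Pool.Agent.QSX.StmtsG

/-!
# Row CVL (squad QSN, MP_dc0713_gt): the matrices `C l` and the first steps
-/

set_option autoImplicit false

namespace Pool.Agent.QSN.H62

open Matrix Finset Pool.Agent.QSX Pool.Agent.QSN

theorem cvl (lgm : Pool.Agent.QSX.LgmStmt) (nfl : Pool.Agent.QSX.NflStmt) : CvlStmt := by
  intro X Y hX F _ _ P A l
  have h1 : (1 : (Matrix (Fin X.m) (Fin X.m) ℝ)ˣ) ∈ hX.Gam := one_mem _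
  have h2 : ue (hX.e l) ∈ hX.Gam := by
    apply Subgroup.subset_closure
    exact ⟨l, 1, by rw [Rat.cast_one, one_smul]⟩
  obtain ⟨w, hw, hwe⟩ := A.val 1 h1 (ue (hX.e l)) h2
  have hsu : SU w := (nfl Y F).1 w hw
  have hC : A.C l = w := by
    unfold AFM.C
    rw [hwe, ue_val hsu]
    exact ((lgm F Y.m).1 w hsu).2
  rw [hC]
  refine ⟨hw, hsu, ?_, hwe⟩
  rw [← hwe]
  show (A.χ 1)⁻¹ * A.χ (1 * ue (((1 : ℚ) : ℝ) • hX.e l)) = (A.χ 1)⁻¹ * A.χ (ue (hX.e l))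
  rw [Rat.cast_one, one_smul, one_mul]

end Pool.Agent.QSN.H62
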