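import Pool.Agent.QSN.StmtsD
import Pool.Agent.QSN.StmtsB2

/-!
# Row WKX (squad QSN, MP_dc0713_gt): a quasi-isometric embedding gives a weak embedding
-/

set_option autoImplicit false

namespace Pool.Agent.QSN.H62

open Matrix Finset Pool.Agent.QSX Pool.Agent.QSN

theorem wkx (vgq : VgqStmt) (wkm : WkmStmt) : WkxStmt := by
  rintro X Y ⟨hX⟩ ⟨E, _, _, f, hf⟩
  obtain ⟨S, P, C, h1, h2, h3⟩ := vgq X Y hX E f hf
  exact wkm X Y hX S P h1 C h2 h3

end Pool.Agent.QSN.H62
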